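import Mathlib
import Pool.Agent.V11166.Hasse.Basic
import Pool.Agent.V11166.Hasse.Data

set_option autoImplicit false

open MP512408

namespace Pool.Agent.Results.MP_512408_co.DimensionFive

/-! ### Basic facts on the data -/

theorem nodup_of_nodupB : ∀ l : List ℕ, nodupB l = true → l.Nodup := by
  intro l
  induction l with
  | nil => intro _; exact List.nodup_nil
  | cons x xs ih =>
    intro h
    simp only [nodupB, Bool.and_eq_true, Bool.not_eq_true'] at h
    rw [List.nodup_cons]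
    refine ⟨?_, ih h.2⟩
    intro hx
    have : xs.contains x = true := by simpa using hx
    rw [this] at h
    exact absurd h.1 (by simp)

theorem nodupF : F.Nodup := nodup_of_nodupB F nodup_F

theorem entry_inj {e e' : Entry} (he : e ∈ D) (he' : e' ∈ D) (h : e.key = e'.key) : e = e' :=
  List.inj_on_of_nodup_map (f := Entry.key) nodupF he he' h

/-- The lattice. -/
abbrev LL := Fam F

theorem exists_entry (x : LL) : ∃ e ∈ D, e.key = x.val := by
  have h := x.mem
  unfold F at h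
  rw [List.mem_map] at h
  exact h

theorem mem_F_of_mem {e : Entry} (he : e ∈ D) : e.key ∈ F := by
  unfold F
  exact List.mem_map.2 ⟨e, he, rfl⟩

/-- propositional content of the check of an entry -/
structure EOk (e : Entry) : Prop where
  lmem : ∀ q ∈ e.low, q.1 ∈ F ∧ msub q.1 e.key = true ∧ q.1 ≠ e.key
  comp : ∀ t ∈ F, msub t e.key = true → t ≠ e.key → ∃ q ∈ e.low, msub t q.1 = true
  pw : e.low.Pairwise (fun q r => ¬ msub q.1 r.1 = true ∧ ¬ msub r.1 q.1 = true)
  lab : ∀ q ∈ e.low, q.2.1 ∈ F ∧ msub q.2.1 e.key = true ∧ ¬ msub q.2.1 q.1 = true ∧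
    ∀ t ∈ F, msub t e.key = true → ¬ msub t q.1 = true → msub q.2.1 t = true
  lab' : ∀ q ∈ e.low, q.2.2 ∈ F ∧ msub q.1 q.2.2 = true ∧ ¬ msub e.key q.2.2 = true ∧
    ∀ t ∈ F, msub q.1 t = true → ¬ msub e.key t = true → msub t q.2.2 = true
  deg : e.low.length +
    (D.filter (fun e' => (e'.low.map (fun q => q.1)).contains e.key)).length = 4

theorem incB_pairwise : ∀ l : List (ℕ × ℕ × ℕ), incB l = true →
    l.Pairwise (fun q r => ¬ msub q.1 r.1 = true ∧ ¬ msub r.1 q.1 = true) := by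
  intro l
  induction l with
  | nil => intro _; exact List.Pairwise.nil
  | cons x xs ih =>
    intro h
    simp only [incB, Bool.and_eq_true, List.all_eq_true, Bool.not_eq_true'] at h
    rw [List.pairwise_cons]
    refine ⟨fun r hr => ?_, ih h.2⟩
    have := h.1 r hr
    simp [this.1, this.2]

theorem natbeq_iff {a b : ℕ} : Nat.beq a b = true ↔ a = b :=
  ⟨Nat.eq_of_beq_eq_true, fun h => by rw [h]; exact Nat.beq_refl b⟩

theorem eok {e : Entry} (he : e ∈ D) : EOk e := by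
  have h := List.all_eq_true.1 chkE_all e he
  simp only [chkE, Bool.and_eq_true, List.all_eq_true] at h
  obtain ⟨h1, h2, h3, h4⟩ := h
  have hlow : ∀ q ∈ e.low, (q.1 ∈ F ∧ msub q.1 e.key = true ∧ q.1 ≠ e.key) ∧
      (q.2.1 ∈ F ∧ msub q.2.1 e.key = true ∧ ¬ msub q.2.1 q.1 = true ∧
        ∀ t ∈ F, msub t e.key = true → ¬ msub t q.1 = true → msub q.2.1 t = true) ∧
      (q.2.2 ∈ F ∧ msub q.1 q.2.2 = true ∧ ¬ msub e.key q.2.2 = true ∧
        ∀ t ∈ F, msub q.1 t = true → ¬ msub e.key t = true → msub t q.2.2 = true) := by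
    intro q hq
    have hh := h1 q hq
    simp only [chkLow, Bool.and_eq_true, List.all_eq_true, Bool.not_eq_true', Bool.or_eq_true,
      List.contains_iff_mem] at hh
    obtain ⟨a1, a2, a3, a4, a5, a6, a7, a8, a9, a10, a11⟩ := hh
    refine ⟨⟨a1, a2, ?_⟩, ⟨a4, a5, by simp [a6], ?_⟩, ⟨a8, a9, by simp [a10], ?_⟩⟩
    · intro hne
      rw [natbeq_iff.2 hne] at a3
      exact absurd a3 (by simp)
    · intro t ht h5 h6
      rcases a7 t ht with h7 | h7 | h7
      · rw [h5] at h7; exact absurd h7 (by simp)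
      · exact absurd h7 h6
      · exact h7
    · intro t ht h5 h6
      rcases a11 t ht with h7 | h7 | h7
      · rw [h5] at h7; exact absurd h7 (by simp)
      · exact absurd h7 h6
      · exact h7
  refine ⟨fun q hq => (hlow q hq).1, ?_, incB_pairwise _ h2, fun q hq => (hlow q hq).2.1,
    fun q hq => (hlow q hq).2.2, natbeq_iff.1 h4⟩
  intro t ht h5 h6
  have h7 := h3 t ht
  simp only [Bool.or_eq_true, Bool.not_eq_true', List.any_eq_true] at h7
  rcases h7 with h7 | h7 | h7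
  · rw [h5] at h7; exact absurd h7 (by simp)
  · exact absurd (natbeq_iff.1 h7) h6
  · exact h7

/-! ### Covers -/

theorem lt_iff {x y : LL} : x < y ↔ msub x.val y.val = true ∧ x.val ≠ y.val := by
  rw [lt_iff_le_and_ne]
  exact ⟨fun h => ⟨h.1, fun h2 => h.2 (Fam.ext h2)⟩, fun h => ⟨h.1, fun h2 => h.2 (by rw [h2])⟩⟩

theorem covBy_iff {x y : LL} {e : Entry} (he : e ∈ D) (hx : e.key = x.val) :
    y ⋖ x ↔ ∃ q ∈ e.low, q.1 = y.val := by
  have E := eok he
  constructor
  · intro h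
    have h1 := lt_iff.1 h.lt
    rw [← hx] at h1
    obtain ⟨q, hq, h2⟩ := E.comp y.val y.mem h1.1 h1.2
    refine ⟨q, hq, ?_⟩
    obtain ⟨a1, a2, a3⟩ := E.lmem q hq
    by_contra hne
    have h3 : y < (⟨q.1, a1⟩ : LL) := lt_iff.2 ⟨h2, fun h => hne h.symm⟩
    have h4 : (⟨q.1, a1⟩ : LL) < x := lt_iff.2 ⟨by rw [← hx]; exact a2, by rw [← hx]; exact a3⟩
    exact h.2 h3 h4
  · rintro ⟨q, hq, hqy⟩
    obtain ⟨a1, a2, a3⟩ := E.lmem q hq
    refine ⟨lt_iff.2 ⟨by rw [← hqy, ← hx]; exact a2, by rw [← hqy, ← hx]; exact a3⟩, ?_⟩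
    intro c hyc hcx
    have h1 := lt_iff.1 hcx
    rw [← hx] at h1
    obtain ⟨r, hr, h2⟩ := E.comp c.val c.mem h1.1 h1.2
    have hyc' := lt_iff.1 hyc
    have h3 : msub q.1 r.1 = true := by
      rw [hqy]
      rw [msub_iff] at h2 ⊢
      intro i hi
      exact h2 i (msub_iff.1 hyc'.1 i hi)
    by_cases hqr : q = r
    · subst hqr
      rw [hqy] at h2
      have : c ≤ y := h2
      exact absurd hyc (not_lt_of_ge this)
    · have : Std.Symm (fun q r : ℕ × ℕ × ℕ =>
        ¬ msub q.1 r.1 = true ∧ ¬ msub r.1 q.1 = true) := ⟨fun a b h => ⟨h.2, h.1⟩⟩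
      have := List.Pairwise.forall E.pw hq hr hqr
      exact this.1 h3

theorem val_injective : Function.Injective (Fam.val : LL → ℕ) := fun _ _ h => Fam.ext h

theorem regular : HasseRegular 4 LL := by
  intro x
  obtain ⟨e, he, hx⟩ := exists_entry x
  have E := eok he
  have h1 : {y : LL | y ⋖ x}.ncard = e.low.length := by
    have himg : Fam.val '' {y : LL | y ⋖ x} = ((e.low.map (fun q => q.1)).toFinset : Set ℕ) := by
      ext v
      simp only [Set.mem_image, Set.mem_ofPred_eq, List.coe_toFinset, List.mem_map]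
      constructor
      · rintro ⟨y, hy, rfl⟩
        obtain ⟨q, hq, h⟩ := (covBy_iff he hx).1 hy
        exact ⟨q, hq, h⟩
      · rintro ⟨q, hq, rfl⟩
        exact ⟨⟨q.1, (E.lmem q hq).1⟩, (covBy_iff he hx).2 ⟨q, hq, rfl⟩, rfl⟩
    rw [← Set.ncard_image_of_injective _ val_injective, himg, Set.ncard_coe_finset,
      List.toFinset_card_of_nodup, List.length_map]
    rw [List.Nodup, List.pairwise_map]
    refine E.pw.imp ?_
    intro a b h hab
    apply h.1
    rw [hab]
    exact msub_iff.2 fun _ h => h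
  have h2 : {y : LL | x ⋖ y}.ncard =
      (D.filter (fun e' => (e'.low.map (fun q => q.1)).contains e.key)).length := by
    have himg : Fam.val '' {y : LL | x ⋖ y} = ((((D.filter
        (fun e' => (e'.low.map (fun q => q.1)).contains e.key)).map Entry.key).toFinset :
          Finset ℕ) : Set ℕ) := by
      ext v
      simp only [Set.mem_image, Set.mem_ofPred_eq, List.coe_toFinset, List.mem_map,
        List.mem_filter, List.contains_iff_mem]
      constructor
      · rintro ⟨y, hy, rfl⟩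
        obtain ⟨e', he', hy'⟩ := exists_entry y
        obtain ⟨q, hq, h⟩ := (covBy_iff he' hy').1 hy
        exact ⟨e', ⟨he', q, hq, by rw [h, hx]⟩, hy'⟩
      · rintro ⟨e', ⟨he', q, hq, h⟩, rfl⟩
        exact ⟨⟨e'.key, mem_F_of_mem he'⟩, (covBy_iff he' rfl).2 ⟨q, hq, by rw [h, hx]⟩, rfl⟩
    rw [← Set.ncard_image_of_injective _ val_injective, himg, Set.ncard_coe_finset,
      List.toFinset_card_of_nodup, List.length_map]
    have hsub : ((D.filter (fun e' => (e'.low.map (fun q => q.1)).contains e.key)).map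
        Entry.key).Sublist F := (List.filter_sublist).map _
    exact nodupF.sublist hsub
  rw [h1, h2]
  exact E.deg

/-! ### Lattice structure, congruence uniformity and semidistributivity -/

theorem cu : CongruenceUniform (PartOrd.of LL) := by
  have h := cu_chain chain chk_chain
  rw [run_eq] at h
  exact h

theorem bounds : HasBounds LL := cu.hasBounds

/-- the lattice structure -/
@[reducible] noncomputable def latLL : Lattice LL := latticeOf LL bounds

instance finLL : Finite LL := by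
  have : Function.Injective (fun x : LL => (⟨x.val, by simpa using x.mem⟩ : F.toFinset)) := by
    intro x y h
    apply Fam.ext
    exact congrArg (fun z : F.toFinset => z.1) h
  exact Finite.of_injective _ this

theorem labels (v w : LL) (h : v ⋖ w) :
    (∃ g : LL, g ≤ w ∧ ¬ g ≤ v ∧ ∀ t : LL, t ≤ w → ¬ t ≤ v → g ≤ t) ∧
    (∃ g : LL, v ≤ g ∧ ¬ w ≤ g ∧ ∀ t : LL, v ≤ t → ¬ w ≤ t → t ≤ g) := by
  obtain ⟨e, he, hw⟩ := exists_entry w
  have E := eok he
  obtain ⟨q, hq, hv⟩ := (covBy_iff he hw).1 h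
  obtain ⟨a1, a2, a3, a4⟩ := E.lab q hq
  obtain ⟨b1, b2, b3, b4⟩ := E.lab' q hq
  rw [hw] at a2 a4 b3 b4
  rw [hv] at a3 a4 b2 b4
  exact ⟨⟨⟨q.2.1, a1⟩, a2, a3, fun t h1 h2 => a4 t.val t.mem h1 h2⟩,
    ⟨⟨q.2.2, b1⟩, b2, b3, fun t h1 h2 => b4 t.val t.mem h1 h2⟩⟩

theorem semidistributive : @Semidistributive LL latLL := by
  let _ : Lattice LL := latLL
  exact ⟨joinSD_of_labels (fun v w h => (labels v w h).1),
    meetSD_of_labels (fun v w h => (labels v w h).2)⟩

/-! ### Dimension at most five -/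

/-- position data of an element -/
noncomputable def posOf (x : LL) : ℕ × ℕ × ℕ × ℕ × ℕ := (Classical.choose (exists_entry x)).pos

theorem posOf_spec (x : LL) : ∃ e ∈ D, e.key = x.val ∧ e.pos = posOf x :=
  ⟨_, (Classical.choose_spec (exists_entry x)).1, (Classical.choose_spec (exists_entry x)).2, rfl⟩

/-- the five coordinates -/
def crd : Fin 5 → (ℕ × ℕ × ℕ × ℕ × ℕ) → ℕ
  | 0, p => p.1
  | 1, p => p.2.1
  | 2, p => p.2.2.1
  | 3, p => p.2.2.2.1
  | 4, p => p.2.2.2.2

theorem crd_inj (i : Fin 5) : Function.Injective (fun x : LL => crd i (posOf x)) := by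
  intro x y h
  obtain ⟨e, he, hx, hpx⟩ := posOf_spec x
  obtain ⟨e', he', hy, hpy⟩ := posOf_spec y
  have hee : e = e' := by
    simp only [← hpx, ← hpy] at h
    fin_cases i
    · exact List.inj_on_of_nodup_map (nodup_of_nodupB _ nodup_p1) he he' h
    · exact List.inj_on_of_nodup_map (nodup_of_nodupB _ nodup_p2) he he' h
    · exact List.inj_on_of_nodup_map (nodup_of_nodupB _ nodup_p3) he he' h
    · exact List.inj_on_of_nodup_map (nodup_of_nodupB _ nodup_p4) he he' h
    · exact List.inj_on_of_nodup_map (nodup_of_nodupB _ nodup_p5) he he' h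
  apply Fam.ext
  rw [← hx, ← hy, hee]

theorem realizer5 : HasRealizer LL 5 := by
  refine ⟨fun i => LinearOrder.lift' (fun x : LL => crd i (posOf x)) (crd_inj i), ?_⟩
  intro x y
  obtain ⟨e, he, hx, hpx⟩ := posOf_spec x
  obtain ⟨e', he', hy, hpy⟩ := posOf_spec y
  have h := List.all_eq_true.1 (List.all_eq_true.1 chkR_true e he) e' he'
  rw [beq_iff_eq] at h
  have h1 : x ≤ y ↔ posle (posOf x) (posOf y) = true := by
    rw [Fam.le_def, ← hx, ← hy, ← hpx, ← hpy, h]
  rw [h1]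
  simp only [posle, Bool.and_eq_true, Nat.ble_eq]
  constructor
  · rintro ⟨c0, c1, c2, c3, c4⟩ i
    fin_cases i
    · exact c0
    · exact c1
    · exact c2
    · exact c3
    · exact c4
  · intro c
    exact ⟨c 0, c 1, c 2, c 3, c 4⟩

/-! ### Dimension at least five -/

theorem wit_facts : (∀ i < 13, (wit i).1 ∈ F ∧ (wit i).2 ∈ F ∧ ¬ msub (wit i).1 (wit i).2 = true) ∧
    ∀ p ∈ Edg, msub (wit p.1).1 (wit p.2).2 = true ∧ msub (wit p.2).1 (wit p.1).2 = true := by
  have h := chkW_true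
  simp only [chkW, Bool.and_eq_true, List.all_eq_true, List.mem_range, List.contains_iff_mem,
    Bool.not_eq_true'] at h
  refine ⟨fun i hi => ?_, fun p hp => h.2 p hp⟩
  obtain ⟨a, b, c⟩ := h.1 i hi
  exact ⟨a, b, by simp [c]⟩

theorem four_aux : ∀ a b x y z : Fin 4, ¬ (a ≠ b ∧ a ≠ x ∧ a ≠ y ∧ b ≠ x ∧ b ≠ y ∧ x ≠ y ∧
    z ≠ x ∧ z ≠ y ∧ z ≠ a ∧ z ≠ b) := by decide +kernel

theorem four (a b x y z : Fin 4) (h1 : a ≠ b) (h2 : a ≠ x) (h3 : a ≠ y) (h4 : b ≠ x)
    (h5 : b ≠ y) (h6 : x ≠ y) (h7 : z ≠ x) (h8 : z ≠ y) (h9 : z ≠ a) : z = b := by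
  by_contra h
  exact four_aux a b x y z ⟨h1, h2, h3, h4, h5, h6, h7, h8, h9, h⟩

theorem boolc : ∀ b4 b5 b6 b7 b8 b9 b10 b11 b12 : Bool,
    ¬ (!(b4 && b5) && !(b4 && b6) && !(b5 && b6) && !(b7 && b8) && !(b9 && b10) &&
      !(b11 && b12) && (b7 || b9) && (b7 || b11) && (b9 || b11) && (b4 || b12) &&
      (b5 || b8) && (b6 || b10)) = true := by decide

theorem no_color (c : ℕ → Fin 4) (h : ∀ p ∈ Edg, c p.1 ≠ c p.2) : False := by
  have e01 := h (0,1) (by decide)
  have e02 := h (0,2) (by decide)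
  have e03 := h (0,3) (by decide)
  have e12 := h (1,2) (by decide)
  have e13 := h (1,3) (by decide)
  have e23 := h (2,3) (by decide)
  -- heads: 4:(0,1) 5:(0,2) 6:(0,3) 7:(1,0) 8:(1,2) 9:(2,0) 10:(2,3) 11:(3,0) 12:(3,1)
  have t4 : c 4 ≠ c 0 → c 4 = c 1 := four _ _ _ _ _ e01 e02 e03 e12 e13 e23
    (h (4,2) (by decide)) (h (4,3) (by decide))
  have t5 : c 5 ≠ c 0 → c 5 = c 2 := four _ _ _ _ _ e02 e01 e03 e12.symm e23 e13
    (h (5,1) (by decide)) (h (5,3) (by decide))
  have t6 : c 6 ≠ c 0 → c 6 = c 3 := four _ _ _ _ _ e03 e01 e02 e13.symm e23.symm e12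
    (h (6,1) (by decide)) (h (6,2) (by decide))
  have t7 : c 7 ≠ c 1 → c 7 = c 0 := four _ _ _ _ _ e01.symm e12 e13 e02 e03 e23
    (h (7,2) (by decide)) (h (7,3) (by decide))
  have t8 : c 8 ≠ c 1 → c 8 = c 2 := four _ _ _ _ _ e12 e01.symm e13 e02.symm e23 e03
    (h (8,0) (by decide)) (h (8,3) (by decide))
  have t9 : c 9 ≠ c 2 → c 9 = c 0 := four _ _ _ _ _ e02.symm e12.symm e23 e01 e03 e13
    (h (9,1) (by decide)) (h (9,3) (by decide))
  have t10 : c 10 ≠ c 2 → c 10 = c 3 := four _ _ _ _ _ e23 e02.symm e12.symm e03.symm e13.symm e01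
    (h (10,0) (by decide)) (h (10,1) (by decide))
  have t11 : c 11 ≠ c 3 → c 11 = c 0 := four _ _ _ _ _ e03.symm e13.symm e23.symm e01 e02 e12
    (h (11,1) (by decide)) (h (11,2) (by decide))
  have t12 : c 12 ≠ c 3 → c 12 = c 1 := four _ _ _ _ _ e13.symm e03.symm e23.symm e01.symm e12 e02
    (h (12,0) (by decide)) (h (12,2) (by decide))
  have n45 := h (4,5) (by decide)
  have n46 := h (4,6) (by decide)
  have n56 := h (5,6) (by decide)
  have n78 := h (7,8) (by decide)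
  have n910 := h (9,10) (by decide)
  have n1112 := h (11,12) (by decide)
  have n79 := h (7,9) (by decide)
  have n711 := h (7,11) (by decide)
  have n911 := h (9,11) (by decide)
  have n412 := h (4,12) (by decide)
  have n58 := h (5,8) (by decide)
  have n610 := h (6,10) (by decide)
  simp only at n45 n46 n56 n78 n910 n1112 n79 n711 n911 n412 n58 n610
  apply boolc (decide (c 4 = c 0)) (decide (c 5 = c 0)) (decide (c 6 = c 0))
    (decide (c 7 = c 1)) (decide (c 8 = c 1)) (decide (c 9 = c 2)) (decide (c 10 = c 2))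
    (decide (c 11 = c 3)) (decide (c 12 = c 3))
  simp only [Bool.and_eq_true, Bool.or_eq_true, Bool.not_eq_true', decide_eq_true_eq,
    Bool.and_eq_false_iff, decide_eq_false_iff_not]
  have two : ∀ {u v w : Fin 4}, u ≠ v → (u ≠ w ∨ v ≠ w) := by
    intro u v w huv
    by_contra hc
    push Not at hc
    exact huv (hc.1.trans hc.2.symm)
  have two' : ∀ {u v a b w : Fin 4}, u ≠ v → (u ≠ a → u = w) → (v ≠ b → v = w) →
      (u = a ∨ v = b) := by
    intro u v a b w huv h1 h2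
    by_contra hc
    push Not at hc
    exact huv ((h1 hc.1).trans (h2 hc.2).symm)
  exact ⟨⟨⟨⟨⟨⟨⟨⟨⟨⟨⟨two n45, two n46⟩, two n56⟩, two n78⟩, two n910⟩, two n1112⟩,
    two' n79 t7 t9⟩, two' n711 t7 t11⟩, two' n911 t9 t11⟩, two' n412 t4 t12⟩,
    two' n58 t5 t8⟩, two' n610 t6 t10⟩

theorem no_realizer {k : ℕ} (hk : k ≤ 4) : ¬ HasRealizer LL k := by
  rintro ⟨R, hR⟩
  obtain ⟨hw1, hw2⟩ := wit_facts
  -- a colour for each witness pair
  have hcol : ∀ i : ℕ, ∃ c : Fin 4, ∀ hi : i < 13, ∃ r : Fin k, c = Fin.castLE hk r ∧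
      ¬ (R r).le (⟨(wit i).1, (hw1 i hi).1⟩ : LL) ⟨(wit i).2, (hw1 i hi).2.1⟩ := by
    intro i
    by_cases hi : i < 13
    · have h1 : ¬ ((⟨(wit i).1, (hw1 i hi).1⟩ : LL) ≤ ⟨(wit i).2, (hw1 i hi).2.1⟩) :=
        (hw1 i hi).2.2
      rw [hR] at h1
      obtain ⟨r, hr⟩ := not_forall.1 h1
      exact ⟨Fin.castLE hk r, fun _ => ⟨r, rfl, hr⟩⟩
    · exact ⟨0, fun h => absurd h hi⟩
  choose c hc using hcol
  refine no_color c ?_
  intro p hp heq
  have hlt : p.1 < 13 ∧ p.2 < 13 := by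
    have : ∀ p ∈ Edg, p.1 < 13 ∧ p.2 < 13 := by decide
    exact this p hp
  obtain ⟨r, hr1, hr2⟩ := hc p.1 hlt.1
  obtain ⟨s, hs1, hs2⟩ := hc p.2 hlt.2
  have hrs : r = s := by
    rw [hr1, hs1] at heq
    exact Fin.castLE_injective hk heq
  subst hrs
  obtain ⟨h1, h2⟩ := hw2 p hp
  have h1' : (⟨(wit p.1).1, (hw1 p.1 hlt.1).1⟩ : LL) ≤ ⟨(wit p.2).2, (hw1 p.2 hlt.2).2.1⟩ := h1
  have h2' : (⟨(wit p.2).1, (hw1 p.2 hlt.2).1⟩ : LL) ≤ ⟨(wit p.1).2, (hw1 p.1 hlt.1).2.1⟩ := h2
  rw [hR] at h1' h2'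
  have h3 := h1' r
  have h4 := h2' r
  have h5 := ((R r).le_total (⟨(wit p.2).1, (hw1 p.2 hlt.2).1⟩ : LL)
    ⟨(wit p.2).2, (hw1 p.2 hlt.2).2.1⟩).resolve_left hs2
  exact hr2 ((R r).le_trans _ _ _ h3 ((R r).le_trans _ _ _ h5 h4))

theorem dim_eq : orderDim LL = 5 := by
  unfold orderDim
  apply le_antisymm
  · exact Nat.sInf_le realizer5
  · apply le_csInf ⟨5, realizer5⟩
    intro k hk
    by_contra hlt
    exact no_realizer (by omega) hk

/-- **Answer to MP_512408 (Q1 and Q2): no.** There is a finite lattice which is semidistributive,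
congruence uniform and `4`-Hasse-regular, but has order dimension `5`. -/
theorem result : ∃ (L : Type) (_ : Lattice L), Finite L ∧ CongruenceUniform (PartOrd.of L) ∧
    Semidistributive L ∧ HasseRegular 4 L ∧ orderDim L = 5 :=
  ⟨LL, latLL, finLL, cu, semidistributive, regular, dim_eq⟩

end Pool.Agent.Results.MP_512408_co.DimensionFive
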